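import Mathlib

/-!
# The index of a permutation
-/

namespace Q148.ML

open Equiv

/-- The index of a permutation: the number of points minus the number of cycles, fixed points
included. -/
def ind {α : Type*} [Fintype α] [DecidableEq α] (g : Perm α) : ℕ :=
  g.cycleType.sum - Multiset.card g.cycleType

section

variable {α β : Type*} [Fintype α] [DecidableEq α] [Fintype β] [DecidableEq β]

theorem card_le_sum_of_one_le {s : Multiset ℕ} (h : ∀ x ∈ s, 1 ≤ x) :
    Multiset.card s ≤ s.sum := by
  have := Multiset.card_nsmul_le_sum h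
  simpa using this

theorem card_le_sum (g : Perm α) : Multiset.card g.cycleType ≤ g.cycleType.sum :=
  card_le_sum_of_one_le fun _ hx => (Perm.one_lt_of_mem_cycleType hx).le

theorem ind_mul_of_disjoint {f g : Perm α} (h : Perm.Disjoint f g) :
    ind (f * g) = ind f + ind g := by
  unfold ind
  rw [h.cycleType_mul, Multiset.sum_add, Multiset.card_add]
  have := card_le_sum f
  have := card_le_sum g
  omega

theorem ind_le_of_embedding {g : Perm α} {π : Perm β} (j : α → β) (hj : Function.Injective j)
    (h : ∀ a, π (j a) = j (g a)) : ind g ≤ ind π := by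
  classical
  set f : α ≃ {b // b ∈ Set.range j} := Equiv.ofInjective j hj with hf
  have hfa : ∀ a, (f a : β) = j a := fun a => rfl
  set π₁ : Perm β := g.extendDomain f with hπ₁
  have h1 : ∀ a, π₁ (j a) = j (g a) := by
    intro a
    have := Perm.extendDomain_apply_image g f a
    simpa [hfa] using this
  have h2 : ∀ b, b ∉ Set.range j → π₁ b = b := by
    intro b hb
    exact Perm.extendDomain_apply_not_subtype g f hb
  have hd : Perm.Disjoint π₁ (π₁⁻¹ * π) := by
    intro b
    by_cases hb : b ∈ Set.range j
    · obtain ⟨a, rfl⟩ := hb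
      right
      rw [Perm.mul_apply, h a, ← h1 a]
      exact π₁.symm_apply_apply (j a)
    · exact Or.inl (h2 b hb)
  have e : π = π₁ * (π₁⁻¹ * π) := by group
  rw [e, ind_mul_of_disjoint hd]
  have : ind π₁ = ind g := by
    unfold ind
    rw [hπ₁, Perm.cycleType_extendDomain]
  omega

theorem sum_cycleFactors (π : Perm α) (F : ℕ → ℕ) :
    (π.cycleType.map F).sum = ∑ c ∈ π.cycleFactorsFinset, F c.support.card := by
  rw [Perm.cycleType_def, Multiset.map_map]
  rfl

/-- If `π` maps `B` to its complement, the index is at least the cardinality of `B`. -/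
theorem card_le_ind {π : Perm α} {B : Finset α} (h : ∀ b ∈ B, π b ∉ B) : B.card ≤ ind π := by
  classical
  have h1 : B ⊆ π.cycleFactorsFinset.biUnion fun c => B ∩ c.support := by
    intro b hb
    have hne : π b ≠ b := by
      intro hcon
      exact h b hb (by rwa [hcon])
    rw [Finset.mem_biUnion]
    refine ⟨π.cycleOf b, ?_, ?_⟩
    · rw [Perm.cycleOf_mem_cycleFactorsFinset_iff, Perm.mem_support]
      exact hne
    · rw [Finset.mem_inter, Perm.mem_support, Perm.cycleOf_apply_self]
      exact ⟨hb, hne⟩
  have h2 : ∀ c ∈ π.cycleFactorsFinset, (B ∩ c.support).card + 1 ≤ c.support.card := by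
    intro c hc
    have hcy := (Perm.mem_cycleFactorsFinset_iff.1 hc)
    obtain ⟨x, hx⟩ := hcy.1.nonempty_support
    have hxx : ∃ y ∈ c.support, y ∉ B := by
      by_cases hxB : x ∈ B
      · refine ⟨c x, Perm.apply_mem_support.2 hx, ?_⟩
        rw [hcy.2 x hx]
        exact h x hxB
      · exact ⟨x, hx, hxB⟩
    obtain ⟨y, hy, hyB⟩ := hxx
    have : B ∩ c.support ⊂ c.support := by
      refine ⟨Finset.inter_subset_right, fun hsub => hyB ?_⟩
      exact (Finset.mem_inter.1 (hsub hy)).1
    exact Finset.card_lt_card this
  have h3 : B.card + π.cycleFactorsFinset.card ≤ ∑ c ∈ π.cycleFactorsFinset, c.support.card := by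
    calc B.card + π.cycleFactorsFinset.card
        ≤ (∑ c ∈ π.cycleFactorsFinset, (B ∩ c.support).card) + π.cycleFactorsFinset.card := by
          gcongr
          exact (Finset.card_le_card h1).trans Finset.card_biUnion_le
      _ = ∑ c ∈ π.cycleFactorsFinset, ((B ∩ c.support).card + 1) := by
          rw [Finset.sum_add_distrib]; simp
      _ ≤ _ := Finset.sum_le_sum h2
  have h4 : π.cycleType.sum = ∑ c ∈ π.cycleFactorsFinset, c.support.card := by
    have := sum_cycleFactors π id
    simpa using this
  have h5 : Multiset.card π.cycleType = π.cycleFactorsFinset.card := by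
    rw [Perm.cycleType_def, Multiset.card_map]; rfl
  unfold ind
  rw [h4, h5]
  omega

theorem ind_lt_card [Nonempty α] (g : Perm α) : ind g < Fintype.card α := by
  unfold ind
  have h1 : g.cycleType.sum ≤ Fintype.card α := by
    rw [Perm.sum_cycleType]
    exact Finset.card_le_univ _
  by_cases h : g = 1
  · subst h
    simp [Fintype.card_pos]
  · have : 0 < Multiset.card g.cycleType := by
      rw [Multiset.card_pos]
      simpa using h
    have h3 : 0 < Fintype.card α := Fintype.card_pos
    omega

theorem ind_pos {g : Perm α} (h : g ≠ 1) : 0 < ind g := by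
  unfold ind
  have h1 : 0 < Multiset.card g.cycleType := by
    rw [Multiset.card_pos]
    simpa using h
  have h2 : Multiset.card g.cycleType • 2 ≤ g.cycleType.sum :=
    Multiset.card_nsmul_le_sum fun _ hx => Perm.two_le_of_mem_cycleType hx
  rw [smul_eq_mul] at h2
  omega

theorem ind_conj (e : α ≃ β) (g : Perm α) : ind (e.permCongr g) = ind g := by
  apply le_antisymm
  · exact ind_le_of_embedding e.symm e.symm.injective fun b => by simp [Equiv.permCongr_apply]
  · exact ind_le_of_embedding e e.injective fun a => by simp [Equiv.permCongr_apply]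

/-- the least index of a nontrivial element -/
noncomputable def minInd (G : Subgroup (Perm α)) : ℕ :=
  sInf {j : ℕ | ∃ g ∈ G, g ≠ 1 ∧ j = ind g}

theorem minInd_le {G : Subgroup (Perm α)} {g : Perm α} (hg : g ∈ G) (h1 : g ≠ 1) :
    minInd G ≤ ind g := Nat.sInf_le ⟨g, hg, h1, rfl⟩

theorem minInd_lt_card [Nonempty α] (G : Subgroup (Perm α)) :
    minInd G < Fintype.card α := by
  by_cases h : ∃ g ∈ G, g ≠ 1
  · obtain ⟨g, hg, h1⟩ := h
    exact (minInd_le hg h1).trans_lt (ind_lt_card g)
  · have : {j : ℕ | ∃ g ∈ G, g ≠ 1 ∧ j = ind g} = ∅ := by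
      ext j
      simp only [Set.mem_empty_iff_false, iff_false]
      rintro ⟨g, hg, h1, _⟩
      exact h ⟨g, hg, h1⟩
    unfold minInd
    rw [this, Nat.sInf_empty]
    exact Fintype.card_pos

end

end Q148.ML
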