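import Mathlib
import Pool.Agent.Q148.ML.Ind

/-!
# Extensions of a number field with given permutation group, over a subfield
-/

namespace Q148.ML

open Equiv

section emb

variable {k L Ω : Type*} [Field k] [Field L] [Field Ω] [Algebra k L] [Algebra k Ω]

/-- the action of the Galois group on embeddings -/
def galPerm : (Ω ≃ₐ[k] Ω) →* Perm (L →ₐ[k] Ω) where
  toFun σ :=
    { toFun := fun φ => σ.toAlgHom.comp φ
      invFun := fun φ => σ.symm.toAlgHom.comp φ
      left_inv := fun φ => by ext x; simp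
      right_inv := fun φ => by ext x; simp }
  map_one' := by ext φ x; rfl
  map_mul' := fun σ τ => by ext φ x; rfl

theorem galPerm_apply (σ : Ω ≃ₐ[k] Ω) (φ : L →ₐ[k] Ω) : galPerm σ φ = σ.toAlgHom.comp φ := rfl

theorem exists_lift [Normal k Ω] [Algebra L Ω] [IsScalarTower k L Ω] (τ : L →ₐ[k] Ω) :
    ∃ s : Ω ≃ₐ[k] Ω, ∀ x, s (algebraMap L Ω x) = τ x := by
  let χ : L ≃ₐ[k] τ.fieldRange := AlgEquiv.ofInjectiveField τ
  refine ⟨χ.liftNormal Ω, fun x => ?_⟩
  rw [AlgEquiv.liftNormal_commutes]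
  rfl

end emb

section index

variable {k K Ω : Type*} [Field k] [Field K] [Field Ω] [Algebra k K] [Algebra K Ω] [Algebra k Ω]
  [IsScalarTower k K Ω] [Normal k Ω]

/-- **Index inequality.** -/
theorem index_le (L : IntermediateField K Ω) [Fintype (L →ₐ[k] Ω)] [DecidableEq (L →ₐ[k] Ω)]
    {n : ℕ} (hn : 0 < n)
    (G : Subgroup (Perm (Fin n))) (e : (L →ₐ[K] Ω) ≃ Fin n)
    (hG : ∀ π : Perm (Fin n), π ∈ G ↔ ∃ σ : Ω ≃ₐ[K] Ω, ∀ φ : L →ₐ[K] Ω,
      e (σ.toAlgHom.comp φ) = π (e φ))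
    (σ : Ω ≃ₐ[k] Ω) (hσ : (galPerm σ : Perm (L →ₐ[k] Ω)) ≠ 1) :
    minInd G ≤ ind (galPerm σ : Perm (L →ₐ[k] Ω)) := by
  classical
  have : Nonempty (Fin n) := ⟨⟨0, hn⟩⟩
  letI : Fintype (L →ₐ[K] Ω) := Fintype.ofEquiv _ e.symm
  obtain ⟨φ₀, hφ₀⟩ : ∃ φ₀ : L →ₐ[k] Ω, galPerm σ φ₀ ≠ φ₀ := by
    by_contra hcon
    push Not at hcon
    exact hσ (Equiv.ext hcon)
  set τ₀ : K →ₐ[k] Ω := φ₀.comp (IsScalarTower.toAlgHom k K L) with hτ₀
  obtain ⟨s, hs⟩ := exists_lift τ₀
  let j : (L →ₐ[K] Ω) → (L →ₐ[k] Ω) := fun φ => s.toAlgHom.comp (φ.restrictScalars k)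
  have hjap : ∀ φ x, j φ x = s (φ x) := fun φ x => rfl
  have hj : Function.Injective j := by
    intro φ ψ h
    ext x
    have := DFunLike.congr_fun h x
    rw [hjap, hjap] at this
    exact s.injective this
  have hjK : ∀ φ (x : K), j φ (algebraMap K L x) = τ₀ x := by
    intro φ x
    rw [hjap, φ.commutes, hs]
  by_cases hc : ∀ x, σ (τ₀ x) = τ₀ x
  · let f : Ω ≃+* Ω := (s.trans (σ.trans s.symm)).toRingEquiv
    have hf : ∀ y, f y = s.symm (σ (s y)) := fun y => rfl
    let σ' : Ω ≃ₐ[K] Ω := AlgEquiv.ofRingEquiv (f := f) (by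
      intro x
      rw [hf, hs, hc, ← hs, AlgEquiv.symm_apply_apply])
    have hσ' : ∀ y, σ' y = s.symm (σ (s y)) := fun y => rfl
    have hcomm : ∀ φ, galPerm σ (j φ) = j (galPerm σ' φ) := by
      intro φ
      ext x
      change σ (s (φ x)) = s (σ' (φ x))
      rw [hσ', AlgEquiv.apply_symm_apply]
    have h1 : ind (galPerm σ' : Perm (L →ₐ[K] Ω)) ≤ ind (galPerm σ : Perm (L →ₐ[k] Ω)) :=
      ind_le_of_embedding j hj hcomm
    have hmem : e.permCongr (galPerm σ') ∈ G := by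
      rw [hG]
      refine ⟨σ', fun φ => ?_⟩
      rw [Equiv.permCongr_apply, Equiv.symm_apply_apply]
      rfl
    have hne : e.permCongr (galPerm σ') ≠ 1 := by
      intro h
      have h2 : (galPerm σ' : Perm (L →ₐ[K] Ω)) = 1 := by
        apply e.permCongr.injective
        rw [h]
        ext i
        simp [Equiv.permCongr_apply]
      apply hφ₀
      let φ₁ : L →ₐ[K] Ω :=
        { toRingHom := (s.symm.toAlgHom.comp φ₀).toRingHom
          commutes' := by
            intro x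
            change s.symm (φ₀ (algebraMap K L x)) = algebraMap K Ω x
            rw [← hs x |> fun h => (s.symm_apply_eq.2 h.symm : s.symm (τ₀ x) = _)]
            rfl }
      have hφ₁ : j φ₁ = φ₀ := by
        ext x
        change s (s.symm (φ₀ x)) = φ₀ x
        rw [AlgEquiv.apply_symm_apply]
      rw [← hφ₁, hcomm, h2, Perm.one_apply]
    calc minInd G ≤ ind (e.permCongr (galPerm σ')) := minInd_le hmem hne
      _ = ind (galPerm σ' : Perm (L →ₐ[K] Ω)) := ind_conj e _
      _ ≤ _ := h1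
  · push Not at hc
    obtain ⟨x, hx⟩ := hc
    let B : Finset (L →ₐ[k] Ω) := Finset.univ.map ⟨j, hj⟩
    have hB : B.card = n := by
      rw [Finset.card_map, Finset.card_univ, Fintype.card_congr e, Fintype.card_fin]
    have h1 : B.card ≤ ind (galPerm σ : Perm (L →ₐ[k] Ω)) := by
      refine card_le_ind fun b hb hb' => ?_
      rw [Finset.mem_map] at hb hb'
      obtain ⟨φ, -, rfl⟩ := hb
      obtain ⟨ψ, -, h⟩ := hb'
      have h2 := DFunLike.congr_fun h (algebraMap K L x)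
      change j ψ (algebraMap K L x) = σ (j φ (algebraMap K L x)) at h2
      rw [hjK, hjK] at h2
      exact hx h2.symm
    have h2 := minInd_lt_card G
    rw [Fintype.card_fin] at h2
    omega

end index

end Q148.ML
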