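import Mathlib
import Pool.Agent.Q148.ML.Fld

/-!
# Counting extensions of a number field over a subfield
-/

namespace Q148.ML

open Equiv

/-- The extensions `L` of degree `n` of `K` inside the algebraic closure of `K`, whose Galois group,
acting on the embeddings, is `G` up to numbering, and whose discriminant is at most `Y` in absolute
value. -/
def Fld (K : Type) [Field K] (n : ℕ) (G : Subgroup (Perm (Fin n))) (Y : ℝ) :
    Set (IntermediateField K (AlgebraicClosure K)) :=
  {L | Module.finrank K L = n ∧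
    (∃ e : (L →ₐ[K] AlgebraicClosure K) ≃ Fin n, ∀ π : Perm (Fin n),
      π ∈ G ↔ ∃ σ : AlgebraicClosure K ≃ₐ[K] AlgebraicClosure K,
        ∀ φ : L →ₐ[K] AlgebraicClosure K, e (σ.toAlgHom.comp φ) = π (e φ)) ∧
    ∃ h : NumberField L, ((|@NumberField.discr L _ h| : ℤ) : ℝ) ≤ Y}

section

set_option linter.unusedSectionVars false

variable (k K : Type) [Field k] [NumberField k] [Field K] [NumberField K] [Algebra k K]
  [FiniteDimensional k K]

instance isAlgClosureTower : IsAlgClosure k (AlgebraicClosure K) where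
  isAlgClosed := inferInstance
  isAlgebraic := Algebra.IsAlgebraic.trans k K (AlgebraicClosure K)

/-- an isomorphism of the algebraic closures -/
noncomputable def psi : AlgebraicClosure K ≃ₐ[k] AlgebraicClosure k :=
  IsAlgClosure.equiv k (AlgebraicClosure K) (AlgebraicClosure k)

/-- the embedding of `L` into the algebraic closure of `k` -/
noncomputable def inc (L : IntermediateField K (AlgebraicClosure K)) :
    L →ₐ[k] AlgebraicClosure k :=
  (psi k K).toAlgHom.comp (L.val.restrictScalars k)

/-- `L` as an extension of `k` -/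
noncomputable def down (L : IntermediateField K (AlgebraicClosure K)) :
    IntermediateField k (AlgebraicClosure k) := (inc k K L).fieldRange

theorem down_injective : Function.Injective (down k K) := by
  have key : ∀ L L' : IntermediateField K (AlgebraicClosure K), down k K L = down k K L' →
      L ≤ L' := by
    intro L L' h x hx
    have h1 : psi k K x ∈ down k K L := ⟨⟨x, hx⟩, rfl⟩
    rw [h] at h1
    obtain ⟨y, hy⟩ := h1
    have h2 : psi k K (y : AlgebraicClosure K) = psi k K x := hy
    have h3 := (psi k K).injective h2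
    rw [← h3]
    exact y.2
  intro L L' h
  exact le_antisymm (key L L' h) (key L' L h.symm)

/-- `L` and its image -/
noncomputable def bEq (L : IntermediateField K (AlgebraicClosure K)) : L ≃ₐ[k] down k K L :=
  AlgEquiv.ofInjectiveField (inc k K L)

theorem discr_ringEquiv {L M : Type*} [Field L] [NumberField L] [Field M] [NumberField M]
    (b : L ≃+* M) : NumberField.discr L = NumberField.discr M :=
  NumberField.discr_eq_discr_of_algEquiv L
    (AlgEquiv.ofRingEquiv (f := b) (by intro r; simp) : L ≃ₐ[ℚ] M)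

theorem exists_group {n : ℕ} (hn : 2 ≤ n) {G : Subgroup (Perm (Fin n))} {Y : ℝ}
    {L : IntermediateField K (AlgebraicClosure K)} (hL : L ∈ Fld K n G Y) :
    ∃ H : Subgroup (Perm (Fin (Module.finrank k K * n))), (∀ i j, ∃ g ∈ H, g i = j) ∧
      minInd G ≤ minInd H ∧ down k K L ∈ Fld k (Module.finrank k K * n) H Y := by
  classical
  obtain ⟨hdeg, ⟨e, hG⟩, hNF, hdisc⟩ := hL
  have hfd : FiniteDimensional K L := Module.finite_of_finrank_pos (by omega)
  have hfdk : FiniteDimensional k L := Module.Finite.trans K L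
  have htow : IsScalarTower k L (AlgebraicClosure K) :=
    IsScalarTower.of_algebraMap_eq fun _ => rfl
  have hdegk : Module.finrank k L = Module.finrank k K * n := by
    rw [← hdeg, Module.finrank_mul_finrank]
  have hcard : Fintype.card (L →ₐ[k] AlgebraicClosure K) = Module.finrank k K * n := by
    rw [AlgHom.card, hdegk]
  let e₀ : (L →ₐ[k] AlgebraicClosure K) ≃ Fin (Module.finrank k K * n) :=
    Fintype.equivFinOfCardEq hcard
  let H : Subgroup (Perm (Fin (Module.finrank k K * n))) :=
    ((galPerm : (AlgebraicClosure K ≃ₐ[k] AlgebraicClosure K) →*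
      Perm (L →ₐ[k] AlgebraicClosure K)).range).map e₀.permCongrHom.toMonoidHom
  have hmem : ∀ π, π ∈ H ↔ ∃ σ : AlgebraicClosure K ≃ₐ[k] AlgebraicClosure K,
      e₀.permCongr (galPerm σ) = π := by
    intro π
    constructor
    · rintro ⟨_, ⟨σ, rfl⟩, h⟩
      exact ⟨σ, h⟩
    · rintro ⟨σ, h⟩
      exact ⟨_, ⟨σ, rfl⟩, h⟩
  have htrans : ∀ i j, ∃ g ∈ H, g i = j := by
    intro i j
    obtain ⟨s, hs⟩ := exists_lift (e₀.symm i)
    obtain ⟨t, ht⟩ := exists_lift (e₀.symm j)
    refine ⟨_, (hmem _).2 ⟨t * s⁻¹, rfl⟩, ?_⟩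
    rw [Equiv.permCongr_apply]
    have : galPerm (t * s⁻¹) (e₀.symm i) = e₀.symm j := by
      ext x
      change t (s.symm (e₀.symm i x)) = e₀.symm j x
      rw [← hs x, AlgEquiv.symm_apply_apply, ht]
    rw [this, Equiv.apply_symm_apply]
  have hind : ∀ g ∈ H, g ≠ 1 → minInd G ≤ ind g := by
    intro g hg h1
    obtain ⟨σ, rfl⟩ := (hmem g).1 hg
    rw [ind_conj]
    refine index_le L (by omega) G e hG σ ?_
    intro h2
    apply h1
    rw [h2]
    ext i
    simp [Equiv.permCongr_apply]
  have hpos : 0 < Module.finrank k K := Module.finrank_pos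
  refine ⟨H, htrans, ?_, ?_⟩
  · refine le_csInf ?_ ?_
    · have h2 : 2 ≤ Module.finrank k K * n := by nlinarith
      obtain ⟨g, hg, h⟩ := htrans ⟨0, by omega⟩ ⟨1, by omega⟩
      refine ⟨ind g, g, hg, ?_, rfl⟩
      rintro rfl
      simp at h
    · rintro _ ⟨g, hg, h1, rfl⟩
      exact hind g hg h1
  · have hNF' : NumberField (down k K L) := NumberField.of_ringEquiv L _ (bEq k K L).toRingEquiv
    refine ⟨?_, ?_, hNF', ?_⟩
    · rw [← hdegk]
      exact (bEq k K L).toLinearEquiv.finrank_eq.symm
    · let θ : (down k K L →ₐ[k] AlgebraicClosure k) ≃ (L →ₐ[k] AlgebraicClosure K) :=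
        AlgEquiv.arrowCongr (bEq k K L).symm (psi k K).symm
      have hθ : ∀ φ x, θ φ x = (psi k K).symm (φ (bEq k K L x)) := fun φ x => rfl
      refine ⟨θ.trans e₀, fun π => ?_⟩
      rw [hmem]
      constructor
      · rintro ⟨σ, rfl⟩
        refine ⟨(psi k K).symm.trans (σ.trans (psi k K)), fun φ => ?_⟩
        rw [Equiv.trans_apply, Equiv.trans_apply, Equiv.permCongr_apply, Equiv.symm_apply_apply]
        congr 1
        ext x
        rw [hθ]
        change (psi k K).symm (psi k K (σ ((psi k K).symm (φ (bEq k K L x))))) =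
          σ ((psi k K).symm (φ (bEq k K L x)))
        rw [AlgEquiv.symm_apply_apply]
      · rintro ⟨σ, hσ⟩
        refine ⟨(psi k K).trans (σ.trans (psi k K).symm), ?_⟩
        ext i
        congr 1
        obtain ⟨φ, rfl⟩ := (θ.trans e₀).surjective i
        rw [← hσ φ, Equiv.trans_apply, Equiv.trans_apply, Equiv.permCongr_apply,
          Equiv.symm_apply_apply]
        congr 1
        ext x
        rw [hθ]
        change (psi k K).symm (σ (psi k K ((psi k K).symm (φ (bEq k K L x))))) =
          (psi k K).symm (σ (φ (bEq k K L x)))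
        rw [AlgEquiv.apply_symm_apply]
    · rw [← discr_ringEquiv (bEq k K L).toRingEquiv]
      exact hdisc

theorem fld_finite (n : ℕ) (G : Subgroup (Perm (Fin n))) (Y : ℝ) : (Fld k n G Y).Finite := by
  have h := NumberField.finite_of_discr_bdd (AlgebraicClosure k) ⌊Y⌋₊
  have h2 := h.image (fun F : {F : IntermediateField ℚ (AlgebraicClosure k) //
    FiniteDimensional ℚ F} => F.1)
  refine Set.Finite.of_finite_image (f := fun L : IntermediateField k (AlgebraicClosure k) =>
    L.restrictScalars ℚ) (h2.subset ?_) ?_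
  · rintro _ ⟨L, ⟨hdeg, -, hNF, hY⟩, rfl⟩
    have hfd : FiniteDimensional ℚ (L.restrictScalars ℚ) := hNF.to_finiteDimensional
    refine ⟨⟨L.restrictScalars ℚ, hfd⟩, ?_, rfl⟩
    have h3 : ((|NumberField.discr L| : ℤ) : ℝ) ≤ Y := hY
    have h4 : |NumberField.discr L| ≤ (⌊Y⌋₊ : ℤ) := by
      have h5 : (|NumberField.discr L| : ℤ) ≤ ⌊Y⌋ := Int.le_floor.2 h3
      have h6 : 0 ≤ Y := le_trans (by positivity) h3
      rwa [← Int.natCast_floor_eq_floor h6] at h5
    exact h4
  · intro L _ L' _ h
    exact IntermediateField.restrictScalars_injective ℚ h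

/-- **Counting inequality.** -/
theorem ncard_le {n : ℕ} (hn : 2 ≤ n) (G : Subgroup (Perm (Fin n))) (Y : ℝ) :
    ∃ S : Finset (Subgroup (Perm (Fin (Module.finrank k K * n)))),
      (∀ H, H ∈ S ↔ (∀ i j, ∃ g ∈ H, g i = j) ∧ minInd G ≤ minInd H) ∧
      (Fld K n G Y).ncard ≤ ∑ H ∈ S, (Fld k (Module.finrank k K * n) H Y).ncard := by
  classical
  refine ⟨Finset.univ.filter fun H => (∀ i j, ∃ g ∈ H, g i = j) ∧ minInd G ≤ minInd H,
    fun H => by simp, ?_⟩
  rw [← Set.ncard_image_of_injective _ (down_injective k K)]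
  refine (Set.ncard_le_ncard (t := ⋃ H ∈ Finset.univ.filter fun H :
    Subgroup (Perm (Fin (Module.finrank k K * n))) =>
      (∀ i j, ∃ g ∈ H, g i = j) ∧ minInd G ≤ minInd H,
        Fld k (Module.finrank k K * n) H Y) ?_ ?_).trans (Finset.set_ncard_biUnion_le _ _)
  · rintro _ ⟨L, hL, rfl⟩
    obtain ⟨H, h1, h2, h3⟩ := exists_group k K hn hL
    simp only [Set.mem_iUnion]
    exact ⟨H, by simp [h1, h2], h3⟩
  · exact Set.Finite.biUnion (Finset.finite_toSet _) fun H _ => fld_finite k _ H Y

end

end Q148.ML
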