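import Mathlib
import Pool.Agent.Q148.ML.Cnt

/-!
# Transpositions in the permutation group of an extension, over a subfield
-/

namespace Q148.ML

open Equiv

/-- The permutation group of `L / K` contains a transposition. -/
def HasTransposition (K : Type) [Field K] (L : IntermediateField K (AlgebraicClosure K)) : Prop :=
  ∃ (σ : AlgebraicClosure K ≃ₐ[K] AlgebraicClosure K) (φ ψ : L →ₐ[K] AlgebraicClosure K), φ ≠ ψ ∧
    σ.toAlgHom.comp φ = ψ ∧ σ.toAlgHom.comp ψ = φ ∧
    ∀ χ : L →ₐ[K] AlgebraicClosure K, χ ≠ φ → χ ≠ ψ → σ.toAlgHom.comp χ = χ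

theorem isSwap_of_ind {α : Type*} [Fintype α] [DecidableEq α] {g : Perm α} (h : ind g = 1) :
    g.IsSwap := by
  rw [Perm.isSwap_iff_cycleType]
  unfold ind at h
  have h2 : Multiset.card g.cycleType • 2 ≤ g.cycleType.sum :=
    Multiset.card_nsmul_le_sum fun _ hx => Perm.two_le_of_mem_cycleType hx
  rw [smul_eq_mul] at h2
  have h3 : Multiset.card g.cycleType = 1 := by
    have h4 : Multiset.card g.cycleType ≠ 0 := by
      intro h5
      rw [Multiset.card_eq_zero] at h5
      rw [h5] at h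
      simp at h
    omega
  obtain ⟨a, ha⟩ := Multiset.card_eq_one.1 h3
  rw [ha] at h ⊢
  simp at h
  rw [show a = 2 by omega]

theorem ind_swap {α : Type*} [Fintype α] [DecidableEq α] {g : Perm α} (h : g.IsSwap) :
    ind g = 1 := by
  rw [Perm.isSwap_iff_cycleType] at h
  unfold ind
  rw [h]
  simp

section

set_option linter.unusedSectionVars false

variable (k K : Type) [Field k] [NumberField k] [Field K] [NumberField K] [Algebra k K]
  [FiniteDimensional k K]

theorem hasTransposition_of_down {n : ℕ} (hn : 2 ≤ n)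
    {L : IntermediateField K (AlgebraicClosure K)} (hdeg : Module.finrank K L = n)
    (h : HasTransposition k (down k K L)) : HasTransposition K L := by
  classical
  have hfd : FiniteDimensional K L := Module.finite_of_finrank_pos (by omega)
  have hfdk : FiniteDimensional k L := Module.Finite.trans K L
  have hcard : Fintype.card (L →ₐ[K] AlgebraicClosure K) = n := by
    rw [AlgHom.card, hdeg]
  let e : (L →ₐ[K] AlgebraicClosure K) ≃ Fin n := Fintype.equivFinOfCardEq hcard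
  let G : Subgroup (Perm (Fin n)) :=
    ((galPerm : (AlgebraicClosure K ≃ₐ[K] AlgebraicClosure K) →*
      Perm (L →ₐ[K] AlgebraicClosure K)).range).map e.permCongrHom.toMonoidHom
  have hG : ∀ π : Perm (Fin n), π ∈ G ↔ ∃ σ : AlgebraicClosure K ≃ₐ[K] AlgebraicClosure K,
      ∀ φ : L →ₐ[K] AlgebraicClosure K, e (σ.toAlgHom.comp φ) = π (e φ) := by
    intro π
    constructor
    · rintro ⟨_, ⟨σ, rfl⟩, h⟩
      refine ⟨σ, fun φ => ?_⟩
      have h' : e.permCongr (galPerm σ) = π := h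
      rw [← h', Equiv.permCongr_apply, Equiv.symm_apply_apply]
      rfl
    · rintro ⟨σ, h⟩
      refine ⟨_, ⟨σ, rfl⟩, ?_⟩
      change e.permCongr (galPerm σ) = π
      ext i
      obtain ⟨φ, rfl⟩ := e.surjective i
      rw [← h φ, Equiv.permCongr_apply, Equiv.symm_apply_apply]
      rfl
  obtain ⟨σ, φ, ψ, hne, h1, h2, h3⟩ := h
  let θ : (down k K L →ₐ[k] AlgebraicClosure k) ≃ (L →ₐ[k] AlgebraicClosure K) :=
    AlgEquiv.arrowCongr (bEq k K L).symm (psi k K).symm
  have hθ : ∀ φ x, θ φ x = (psi k K).symm (φ (bEq k K L x)) := fun φ x => rfl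
  let τ : AlgebraicClosure K ≃ₐ[k] AlgebraicClosure K := (psi k K).trans (σ.trans (psi k K).symm)
  have hτ : ∀ χ, galPerm τ (θ χ) = θ (σ.toAlgHom.comp χ) := by
    intro χ
    ext x
    rw [hθ]
    change (psi k K).symm (σ (psi k K ((psi k K).symm (χ (bEq k K L x))))) =
      (psi k K).symm (σ (χ (bEq k K L x)))
    rw [AlgEquiv.apply_symm_apply]
  have hsw : (galPerm τ : Perm (L →ₐ[k] AlgebraicClosure K)) = Equiv.swap (θ φ) (θ ψ) := by
    ext1 χ
    obtain ⟨χ, rfl⟩ := θ.surjective χ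
    rw [hτ]
    by_cases hc1 : χ = φ
    · rw [hc1, h1, Equiv.swap_apply_left]
    by_cases hc2 : χ = ψ
    · rw [hc2, h2, Equiv.swap_apply_right]
    rw [h3 χ hc1 hc2, Equiv.swap_apply_of_ne_of_ne]
    · exact fun h => hc1 (θ.injective h)
    · exact fun h => hc2 (θ.injective h)
  have hisw : (galPerm τ : Perm (L →ₐ[k] AlgebraicClosure K)).IsSwap :=
    ⟨θ φ, θ ψ, fun h => hne (θ.injective h), hsw⟩
  have hne1 : (galPerm τ : Perm (L →ₐ[k] AlgebraicClosure K)) ≠ 1 := by
    rw [hsw]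
    intro h
    have := Equiv.congr_fun h (θ φ)
    rw [Equiv.swap_apply_left, Perm.one_apply] at this
    exact hne (θ.injective this.symm)
  have hle := index_le L (by omega) G e hG τ hne1
  rw [ind_swap hisw] at hle
  -- the least index of `G` is at most one
  have htr : ∃ g ∈ G, g ≠ 1 := by
    have hn0 : (⟨0, by omega⟩ : Fin n) ≠ ⟨1, by omega⟩ := by simp
    obtain ⟨s, hs⟩ := exists_lift (e.symm ⟨0, by omega⟩)
    obtain ⟨t, ht⟩ := exists_lift (e.symm ⟨1, by omega⟩)
    refine ⟨e.permCongr (galPerm (t * s⁻¹)), ⟨_, ⟨t * s⁻¹, rfl⟩, rfl⟩, ?_⟩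
    intro h
    have h4 := Equiv.congr_fun h ⟨0, by omega⟩
    rw [Equiv.permCongr_apply] at h4
    have h5 : galPerm (t * s⁻¹) (e.symm ⟨0, by omega⟩) = e.symm ⟨1, by omega⟩ := by
      ext x
      change t (s.symm (e.symm ⟨0, by omega⟩ x)) = e.symm ⟨1, by omega⟩ x
      rw [← hs x, AlgEquiv.symm_apply_apply, ht]
    rw [h5, Equiv.apply_symm_apply, Perm.one_apply] at h4
    exact hn0 h4.symm
  obtain ⟨g₀, hg₀, hg₀1⟩ := htr
  have hset : {j : ℕ | ∃ g ∈ G, g ≠ 1 ∧ j = ind g}.Nonempty := ⟨_, g₀, hg₀, hg₀1, rfl⟩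
  obtain ⟨g, hg, hg1, hgm⟩ := Nat.sInf_mem hset
  have hgi : ind g = 1 := by
    have h6 : ind g ≤ 1 := by
      rw [← hgm]; exact hle
    have := ind_pos hg1
    omega
  obtain ⟨x, y, hxy, hgs⟩ := isSwap_of_ind hgi
  obtain ⟨ρ, hρ⟩ := (hG g).1 hg
  refine ⟨ρ, e.symm x, e.symm y, fun h => hxy (e.symm.injective h), ?_, ?_, ?_⟩
  · apply e.injective
    rw [hρ, hgs]; simp
  · apply e.injective
    rw [hρ, hgs]; simp
  · intro χ h7 h8
    apply e.injective
    rw [hρ, hgs, Equiv.swap_apply_of_ne_of_ne]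
    · intro h; exact h7 (by rw [← h]; simp)
    · intro h; exact h8 (by rw [← h]; simp)

end

end Q148.ML
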